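import Mathlib

/-!
# An edge of a graph that is not an edge of the second eigenpolytope

The square of the 8-cycle (the circulant graph on `ZMod 8` with connection set `{±1, ±2}`) has second
largest eigenvalue `√2` and its `√2`-eigenpolytope is a regular octagon whose vertices are the images
of the vertices of the graph, in cyclic order. The edge `{0, 2}` of the graph gives a diagonal of
the octagon.
-/

namespace Pool.Agent.Results.MP_0d5a8e_co.NotAnEdge

open scoped Classical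
open Module

noncomputable section

/-- `θ` is the second largest distinct eigenvalue of the adjacency matrix of `G`. -/
def IsSecondLargestEigenvalue {n : ℕ} (G : SimpleGraph (Fin n)) (θ : ℝ) : Prop :=
  End.HasEigenvalue (Matrix.toLin' (G.adjMatrix ℝ)) θ ∧
    ∃ θ₁ : ℝ, End.HasEigenvalue (Matrix.toLin' (G.adjMatrix ℝ)) θ₁ ∧ θ < θ₁ ∧
      ∀ μ : ℝ, End.HasEigenvalue (Matrix.toLin' (G.adjMatrix ℝ)) μ → μ = θ₁ ∨ μ ≤ θ

/-- The eigenspace of the adjacency matrix of `G` for the number `θ`. -/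
abbrev Eig {n : ℕ} (G : SimpleGraph (Fin n)) (θ : ℝ) : Submodule ℝ (Fin n → ℝ) :=
  End.eigenspace (Matrix.toLin' (G.adjMatrix ℝ)) θ

/-- The point `v_i`: the `i`-th row of the matrix whose columns are the vectors of the basis `b` of
the eigenspace. -/
def point {n d : ℕ} {G : SimpleGraph (Fin n)} {θ : ℝ} (b : Basis (Fin d) ℝ (Eig G θ)) (i : Fin n) :
    Fin d → ℝ :=
  fun k => (b k : Fin n → ℝ) i

/-- The `θ`-eigenpolytope of `G`: the convex hull of the points `v_i`. -/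
def eigenpolytope {n d : ℕ} {G : SimpleGraph (Fin n)} {θ : ℝ} (b : Basis (Fin d) ℝ (Eig G θ)) :
    Set (Fin d → ℝ) :=
  convexHull ℝ (Set.range (point b))

/-- The functional on the ambient space of the eigenpolytope given by an eigenvector. -/
theorem functional {n d : ℕ} {G : SimpleGraph (Fin n)} {θ : ℝ} (b : Basis (Fin d) ℝ (Eig G θ))
    (x : Fin n → ℝ) (hx : x ∈ Eig G θ) :
    ∃ ℓ : (Fin d → ℝ) →ₗ[ℝ] ℝ, ∀ i, ℓ (point b i) = x i := by
  let c := b.repr ⟨x, hx⟩
  refine ⟨∑ k, c k • LinearMap.proj k, fun i => ?_⟩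
  have h := b.sum_repr ⟨x, hx⟩
  have h2 : (∑ k, c k • (b k : Fin n → ℝ)) = x := by
    have := congrArg (Eig G θ).subtype h
    rw [map_sum] at this
    exact this
  rw [← congrFun h2 i]
  simp [point]

/-- A vertex at which an eigenvector has its unique maximum gives an extreme point. -/
theorem extreme_of_unique_max {n d : ℕ} {G : SimpleGraph (Fin n)} {θ : ℝ}
    (b : Basis (Fin d) ℝ (Eig G θ)) (x : Fin n → ℝ) (hx : x ∈ Eig G θ) (i : Fin n)
    (h : ∀ j, j ≠ i → x j < x i) : point b i ∈ Set.extremePoints ℝ (eigenpolytope b) := by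
  obtain ⟨ℓ, hℓ⟩ := functional b x hx
  -- every point of the polytope other than `v_i` has smaller value
  have hconv : Convex ℝ {y : Fin d → ℝ | ℓ y ≤ x i ∧ (ℓ y = x i → y = point b i)} := by
    intro y hy z hz s t hs ht hst
    obtain ⟨hy1, hy2⟩ := hy
    obtain ⟨hz1, hz2⟩ := hz
    have e1 : ℓ (s • y + t • z) = s * ℓ y + t * ℓ z := by simp
    refine ⟨?_, ?_⟩
    · rw [e1]
      have : x i = s * x i + t * x i := by rw [← add_mul, hst, one_mul]
      rw [this]
      gcongr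
    · intro he
      rw [e1] at he
      have h1 : s * (x i - ℓ y) + t * (x i - ℓ z) = 0 := by
        have : x i = s * x i + t * x i := by rw [← add_mul, hst, one_mul]
        linarith
      have h2 : 0 ≤ s * (x i - ℓ y) := mul_nonneg hs (by linarith)
      have h3 : 0 ≤ t * (x i - ℓ z) := mul_nonneg ht (by linarith)
      have h4 : s * (x i - ℓ y) = 0 := by linarith
      have h5 : t * (x i - ℓ z) = 0 := by linarith
      have h6 : s • y = s • point b i := by
        rcases mul_eq_zero.1 h4 with h | h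
        · simp [h]
        · rw [hy2 (by linarith)]
      have h7 : t • z = t • point b i := by
        rcases mul_eq_zero.1 h5 with h | h
        · simp [h]
        · rw [hz2 (by linarith)]
      rw [h6, h7, ← add_smul, hst, one_smul]
  have key : eigenpolytope b ⊆ {y : Fin d → ℝ | ℓ y ≤ x i ∧ (ℓ y = x i → y = point b i)} := by
    apply convexHull_min _ hconv
    rintro _ ⟨j, rfl⟩
    by_cases hj : j = i
    · subst hj
      exact ⟨(hℓ j).le, fun _ => rfl⟩
    · have := h j hj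
      refine ⟨by rw [hℓ]; exact this.le, fun he => ?_⟩
      rw [hℓ] at he
      linarith
  rw [mem_extremePoints]
  refine ⟨subset_convexHull ℝ _ ⟨i, rfl⟩, ?_⟩
  intro y hy z hz hyz
  obtain ⟨hy1, hy2⟩ := key hy
  obtain ⟨hz1, hz2⟩ := key hz
  obtain ⟨s, t, hs, ht, hst, he⟩ := hyz
  have e1 : ℓ (s • y + t • z) = s * ℓ y + t * ℓ z := by simp
  rw [he, hℓ] at e1
  have h1 : s * (x i - ℓ y) + t * (x i - ℓ z) = 0 := by
    have : x i = s * x i + t * x i := by rw [← add_mul, hst, one_mul]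
    linarith
  have h2 : 0 ≤ s * (x i - ℓ y) := mul_nonneg hs.le (by linarith)
  have h3 : 0 ≤ t * (x i - ℓ z) := mul_nonneg ht.le (by linarith)
  have h4 : s * (x i - ℓ y) = 0 := by linarith
  have h5 : t * (x i - ℓ z) = 0 := by linarith
  refine ⟨hy2 ?_, hz2 ?_⟩
  · rcases mul_eq_zero.1 h4 with h | h <;> linarith
  · rcases mul_eq_zero.1 h5 with h | h <;> linarith

/-- The square of the `8`-cycle. -/
def G8 : SimpleGraph (Fin 8) where
  Adj i j := j - i = 1 ∨ j - i = 2 ∨ j - i = 6 ∨ j - i = 7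
  symm := ⟨by decide⟩
  loopless := ⟨by decide⟩

theorem adj_eq : G8.adjMatrix ℝ = !![0, 1, 1, 0, 0, 0, 1, 1; 1, 0, 1, 1, 0, 0, 0, 1;
    1, 1, 0, 1, 1, 0, 0, 0; 0, 1, 1, 0, 1, 1, 0, 0; 0, 0, 1, 1, 0, 1, 1, 0; 0, 0, 0, 1, 1, 0, 1, 1;
    1, 0, 0, 0, 1, 1, 0, 1; 1, 1, 0, 0, 0, 1, 1, 0] := by
  ext i j
  rw [SimpleGraph.adjMatrix_apply]
  fin_cases i <;> fin_cases j <;> simp [G8] <;> decide

theorem mem_eig {θ : ℝ} {x : Fin 8 → ℝ} : x ∈ Eig G8 θ ↔
    x 1 + x 2 + x 6 + x 7 = θ * x 0 ∧ x 0 + x 2 + x 3 + x 7 = θ * x 1 ∧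
    x 0 + x 1 + x 3 + x 4 = θ * x 2 ∧ x 1 + x 2 + x 4 + x 5 = θ * x 3 ∧
    x 2 + x 3 + x 5 + x 6 = θ * x 4 ∧ x 3 + x 4 + x 6 + x 7 = θ * x 5 ∧
    x 0 + x 4 + x 5 + x 7 = θ * x 6 ∧ x 0 + x 1 + x 5 + x 6 = θ * x 7 := by
  rw [Eig, End.mem_eigenspace_iff, adj_eq, Matrix.toLin'_apply, funext_iff, Fin.forall_fin_succ]
  simp [Matrix.mulVec, dotProduct, Fin.sum_univ_eight, Fin.forall_fin_succ]

theorem sq2 : √(2 : ℝ) * √2 = 2 := Real.mul_self_sqrt (by norm_num)

/-- The relations between the coordinates of an eigenvector for `√2`. -/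
theorem rel {x : Fin 8 → ℝ} (h : x ∈ Eig G8 (√2)) : x 0 + x 2 = √2 * x 1 ∧ x 5 = - x 1 := by
  obtain ⟨h0, h1, h2, h3, h4, h5, h6, h7⟩ := mem_eig.1 h
  have hs := sq2
  set s : ℝ := √2 with hsdef
  have e1 : x 0 + x 2 = s * x 1 := by
    linear_combination (-(2/7) * s) * h0 + (1/7 + 3/7 * s) * h1 + (-(2/7) * s) * h2 + (3/7 - 1/7 * s) * h3 + (-(1/7)) * h4 + (-(2/7) + 2/7 * s) * h5 + (-(1/7)) * h6 + (3/7 - 1/7 * s) * h7 + ((-(2/7)) * x 0 + (3/7) * x 1 + (-(2/7)) * x 2 + (-(1/7)) * x 3 + (2/7) * x 5 + (-(1/7)) * x 7) * hs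
  have e2 : x 1 + x 3 = s * x 2 := by
    linear_combination (3/7 - 1/7 * s) * h0 + (-(2/7) * s) * h1 + (1/7 + 3/7 * s) * h2 + (-(2/7) * s) * h3 + (3/7 - 1/7 * s) * h4 + (-(1/7)) * h5 + (-(2/7) + 2/7 * s) * h6 + (-(1/7)) * h7 + ((-(1/7)) * x 0 + (-(2/7)) * x 1 + (3/7) * x 2 + (-(2/7)) * x 3 + (-(1/7)) * x 4 + (2/7) * x 6) * hs
  have e3 : x 2 + x 4 = s * x 3 := by
    linear_combination (-(1/7)) * h0 + (3/7 - 1/7 * s) * h1 + (-(2/7) * s) * h2 + (1/7 + 3/7 * s) * h3 + (-(2/7) * s) * h4 + (3/7 - 1/7 * s) * h5 + (-(1/7)) * h6 + (-(2/7) + 2/7 * s) * h7 + ((-(1/7)) * x 1 + (-(2/7)) * x 2 + (3/7) * x 3 + (-(2/7)) * x 4 + (-(1/7)) * x 5 + (2/7) * x 7) * hs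
  have e4 : x 3 + x 5 = s * x 4 := by
    linear_combination (-(2/7) + 2/7 * s) * h0 + (-(1/7)) * h1 + (3/7 - 1/7 * s) * h2 + (-(2/7) * s) * h3 + (1/7 + 3/7 * s) * h4 + (-(2/7) * s) * h5 + (3/7 - 1/7 * s) * h6 + (-(1/7)) * h7 + ((2/7) * x 0 + (-(1/7)) * x 2 + (-(2/7)) * x 3 + (3/7) * x 4 + (-(2/7)) * x 5 + (-(1/7)) * x 6) * hs
  refine ⟨e1, ?_⟩
  linear_combination e4 + s * e3 + e2 + (x 3) * hs

/-- The eigenvalues of the square of the `8`-cycle other than `4` are at most `√2`. -/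
theorem eigenvalues {μ : ℝ} (h : End.HasEigenvalue (Matrix.toLin' (G8.adjMatrix ℝ)) μ) :
    μ = 4 ∨ μ ≤ √2 := by
  obtain ⟨x, hx, hx0⟩ := h.exists_hasEigenvector
  by_contra hcon
  push Not at hcon
  obtain ⟨hμ4, hμ⟩ := hcon
  apply hx0
  obtain ⟨h0, h1, h2, h3, h4, h5, h6, h7⟩ := mem_eig.1 hx
  have hpos : 0 < √(2 : ℝ) := by positivity
  have hμ0 : 0 < μ := hpos.trans hμ
  have hμ2 : μ * μ - 2 ≠ 0 := by
    have := sq2
    nlinarith
  have hμ3 : μ * (μ + 2) ≠ 0 := by positivity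
  have hμ4' : μ - 4 ≠ 0 := sub_ne_zero.2 hμ4
  have hsum : x 0 + x 1 + x 2 + x 3 + x 4 + x 5 + x 6 + x 7 = 0 := by
    have : (μ - 4) * (x 0 + x 1 + x 2 + x 3 + x 4 + x 5 + x 6 + x 7) = 0 := by
      linear_combination -(h0 + h1 + h2 + h3 + h4 + h5 + h6 + h7)
    exact (mul_eq_zero.1 this).resolve_left hμ4'
  have m0 : x 0 - x 4 = 0 := by
    have : (μ * μ - 2) * (x 0 - x 4) = 0 := by
      linear_combination -μ * (h0 - h4) - (h1 - h5) + (h3 - h7)
    exact (mul_eq_zero.1 this).resolve_left hμ2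
  have m1 : x 1 - x 5 = 0 := by
    have : (μ * μ - 2) * (x 1 - x 5) = 0 := by
      linear_combination -μ * (h1 - h5) - (h0 - h4) - (h2 - h6)
    exact (mul_eq_zero.1 this).resolve_left hμ2
  have m2 : x 2 - x 6 = 0 := by
    have : (μ * μ - 2) * (x 2 - x 6) = 0 := by
      linear_combination -μ * (h2 - h6) - (h1 - h5) - (h3 - h7)
    exact (mul_eq_zero.1 this).resolve_left hμ2
  have m3 : x 3 - x 7 = 0 := by
    have : (μ * μ - 2) * (x 3 - x 7) = 0 := by
      linear_combination -μ * (h3 - h7) + (h0 - h4) - (h2 - h6)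
    exact (mul_eq_zero.1 this).resolve_left hμ2
  have q0 : x 2 + x 6 = (μ + 1) * (x 0 + x 4) := by linear_combination h0 + h4 - hsum
  have q1 : x 3 + x 7 = (μ + 1) * (x 1 + x 5) := by linear_combination h1 + h5 - hsum
  have q2 : x 0 + x 4 = (μ + 1) * (x 2 + x 6) := by linear_combination h2 + h6 - hsum
  have q3 : x 1 + x 5 = (μ + 1) * (x 3 + x 7) := by linear_combination h3 + h7 - hsum
  have p0 : x 0 + x 4 = 0 := by
    have : (μ * (μ + 2)) * (x 0 + x 4) = 0 := by linear_combination -q2 - (μ + 1) * q0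
    exact (mul_eq_zero.1 this).resolve_left hμ3
  have p1 : x 1 + x 5 = 0 := by
    have : (μ * (μ + 2)) * (x 1 + x 5) = 0 := by linear_combination -q3 - (μ + 1) * q1
    exact (mul_eq_zero.1 this).resolve_left hμ3
  have p2 : x 2 + x 6 = 0 := by rw [q0, p0, mul_zero]
  have p3 : x 3 + x 7 = 0 := by rw [q1, p1, mul_zero]
  funext j
  fin_cases j <;> simp <;> linarith

/-- The rotated cosine vector. -/
def cosv : Fin 8 → Fin 8 → ℝ := fun i j => ![1, √2 / 2, 0, -(√2 / 2), -1, -(√2 / 2), 0, √2 / 2] (j - i)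

theorem cosv_mem (i : Fin 8) : cosv i ∈ Eig G8 (√2) := by
  rw [mem_eig]
  have hs := sq2
  have f1 : √(2 : ℝ) * (√2 / 2) = 1 := by linarith
  have f2 : √(2 : ℝ) * -(√2 / 2) = -1 := by linarith
  fin_cases i <;> (refine ⟨?_, ?_, ?_, ?_, ?_, ?_, ?_, ?_⟩) <;> simp [cosv] <;>
    first | done | linarith

/-- The point `v_i` is a vertex of the eigenpolytope. -/
theorem isVertex {d : ℕ} (b : Basis (Fin d) ℝ (Eig G8 (√2))) (i : Fin 8) :
    point b i ∈ Set.extremePoints ℝ (eigenpolytope b) := by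
  apply extreme_of_unique_max b (cosv i) (cosv_mem i) i
  have h1 : √(2 : ℝ) < 2 := by
    have := sq2
    nlinarith [Real.sqrt_nonneg (2 : ℝ)]
  have h0 : 0 < √(2 : ℝ) := by positivity
  intro j hj
  have hj' : j - i ≠ 0 := sub_ne_zero.2 hj
  have : cosv i i = 1 := by simp [cosv]
  rw [this]
  unfold cosv
  generalize j - i = k at hj'
  fin_cases k <;> simp at hj' ⊢ <;> linarith

/-- **There is a finite simple graph and an edge `ij` of it such that `v_i ≠ v_j` are both vertices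
of the eigenpolytope for the second largest eigenvalue but the segment between them is not a face
(and hence not an edge) of the eigenpolytope.** -/
theorem result : ∃ (n : ℕ) (G : SimpleGraph (Fin n)) (θ : ℝ) (d : ℕ) (b : Basis (Fin d) ℝ (Eig G θ))
    (i j : Fin n), IsSecondLargestEigenvalue G θ ∧ G.Adj i j ∧ point b i ≠ point b j ∧
      point b i ∈ Set.extremePoints ℝ (eigenpolytope b) ∧
      point b j ∈ Set.extremePoints ℝ (eigenpolytope b) ∧
      ¬ IsExtreme ℝ (eigenpolytope b) (segment ℝ (point b i) (point b j)) := by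
  let b := finBasis ℝ (Eig G8 (√2))
  have hs := sq2
  have hs0 : 0 < √(2 : ℝ) := by positivity
  have hs2 : √(2 : ℝ) < 2 := by nlinarith
  refine ⟨8, G8, √2, _, b, 0, 2, ⟨?_, 4, ?_, ?_, ?_⟩, ?_, ?_, isVertex b 0, isVertex b 2, ?_⟩
  · refine End.hasEigenvalue_of_hasEigenvector ⟨cosv_mem 0, fun h => ?_⟩
    have := congrFun h 0
    simp [cosv] at this
  · refine End.hasEigenvalue_of_hasEigenvector (x := fun _ => (1 : ℝ)) ⟨?_, fun h => ?_⟩
    · rw [mem_eig]
      norm_num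
    · have := congrFun h 0
      simp at this
  · linarith
  · exact fun μ hμ => eigenvalues hμ
  · simp [G8]
  · intro h
    obtain ⟨ℓ, hℓ⟩ := functional b (cosv 0) (cosv_mem 0)
    have := congrArg ℓ h
    rw [hℓ, hℓ] at this
    simp [cosv] at this
  · rintro ⟨-, hext⟩
    have r1 : point b 0 + point b 2 = √2 • point b 1 := by
      funext k
      exact (rel (b k).2).1
    have r2 : point b 5 = - point b 1 := by
      funext k
      exact (rel (b k).2).2
    have hmem : ∀ i, point b i ∈ eigenpolytope b := fun i => subset_convexHull ℝ _ ⟨i, rfl⟩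
    have h0 : (0 : Fin _ → ℝ) ∈ eigenpolytope b := by
      have := (convex_convexHull ℝ (Set.range (point b))) (hmem 1) (hmem 5)
        (show (0 : ℝ) ≤ 1 / 2 by norm_num) (show (0 : ℝ) ≤ 1 / 2 by norm_num) (by norm_num)
      rw [r2] at this
      simpa [eigenpolytope] using this
    have hz : (√2 / 2 : ℝ) • point b 1 ∈ segment ℝ (point b 0) (point b 2) := by
      refine ⟨1 / 2, 1 / 2, by norm_num, by norm_num, by norm_num, ?_⟩
      rw [← smul_add, r1, smul_smul]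
      congr 1
      ring
    have hz2 : (√2 / 2 : ℝ) • point b 1 ∈ openSegment ℝ (point b 1) 0 :=
      ⟨√2 / 2, 1 - √2 / 2, by positivity, by linarith, by ring, by simp⟩
    obtain ⟨s, t, hs', ht', hst, he⟩ := hext (hmem 1) h0 hz hz2
    obtain ⟨ℓ, hℓ⟩ := functional b (cosv 1) (cosv_mem 1)
    have := congrArg ℓ he
    rw [map_add, map_smul, map_smul, hℓ, hℓ, hℓ] at this
    simp [cosv] at this
    nlinarith

end

end Pool.Agent.Results.MP_0d5a8e_co.NotAnEdge
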